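import Pool.Agent.P.MP_5ec319_an.Envelope
import Pool.Agent.P.MP_5ec319_an.Upper
import Pool.Agent.P.MP_5ec319_an.Lower

/-! Over a countable non-amenable group, every countable module embeds in a boundedly generated module
whose dual action, and that of the cokernel, have zero sofic entropy for every sofic approximation;
the dual of the group ring has infinite entropy, so additivity of sofic entropy fails. -/

set_option autoImplicit false

namespace Pool.Agent.Results.MP_5ec319_an.ZeroEntropyEnvelope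

open Pool.Agent.P.MP_5ec319_an

theorem result (Γ : Type) [Group Γ] [Countable Γ] [DecidableEq Γ] (hΓ : ¬ Amenable Γ) :
    (∃ n : ℕ, ∀ (A : Type) [AddCommGroup A] [Module (MonoidAlgebra ℤ Γ) A] [Countable A] (N : ℤ),
      (∀ a : A, N • a = 0) →
      ∃ (B C : Type) (_ : AddCommGroup B) (_ : Module (MonoidAlgebra ℤ Γ) B) (_ : Countable B)
        (_ : AddCommGroup C) (_ : Module (MonoidAlgebra ℤ Γ) C) (_ : Countable C)
        (f : A →ₗ[MonoidAlgebra ℤ Γ] B) (g : B →ₗ[MonoidAlgebra ℤ Γ] C),
        Function.Injective f ∧ Function.Surjective g ∧ Function.Exact f g ∧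
        (∃ x : Fin n → B, Submodule.span (MonoidAlgebra ℤ Γ) (Set.range x) = ⊤) ∧
        (∀ b : B, N • b = 0) ∧
        ∀ (d : ℕ → ℕ) (σ : ∀ i, Γ → Equiv.Perm (Fin (d i))), IsSofic d σ →
          HasEnt d σ B 0 ∧ HasEnt d σ C 0) ∧
    ∀ (d : ℕ → ℕ) (σ : ∀ i, Γ → Equiv.Perm (Fin (d i))), IsSofic d σ →
      HasEnt d σ (MonoidAlgebra ℤ Γ) ⊤ := by
  classical
  have := countable_ring (Γ := Γ)
  refine ⟨?_, fun d σ hσ => ⟨exists_isGen, fun ρ h => ent_top h hσ⟩⟩
  obtain ⟨I, _, _, ι, hι⟩ := exists_robust hΓ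
  refine ⟨Fintype.card I, fun A _ _ _ N hN => ?_⟩
  obtain ⟨B, _, _, f, π, hf, hπ, hB, hrel⟩ := exists_envelope ι hι A N hN
  have hB' : Countable B := hπ.countable
  have hg := (LinearMap.range f).mkQ_surjective
  have hC' : Countable (B ⧸ LinearMap.range f) := hg.countable
  refine ⟨B, B ⧸ LinearMap.range f, inferInstance, inferInstance, hB', inferInstance, inferInstance, hC',
    f, (LinearMap.range f).mkQ, hf, hg, LinearMap.exact_map_mkQ_range f, ?_, hB, fun d σ hσ => ⟨?_, ?_⟩⟩
  · refine ⟨fun k => π (Pi.single ((Fintype.equivFin I).symm k) 1), ?_⟩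
    have e : Set.range (fun k => π (Pi.single ((Fintype.equivFin I).symm k) 1)) =
        π '' Set.range fun i : I => (Pi.single i 1 : I → MonoidAlgebra ℤ Γ) := by
      rw [← Set.range_comp]
      exact (Fintype.equivFin I).symm.surjective.range_comp
        (π ∘ fun i : I => (Pi.single i 1 : I → MonoidAlgebra ℤ Γ))
    rw [e, ← Submodule.map_span, span_single, Submodule.map_top, LinearMap.range_eq_top.2 hπ]
  · exact hasEnt_zero (compressible_of ι π hπ hrel) hσ
  · refine hasEnt_zero (compressible_of ι ((LinearMap.range f).mkQ.comp π) (hg.comp hπ)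
      fun j u v x => ?_) hσ
    rw [LinearMap.comp_apply, hrel]
    split_ifs
    · rfl
    · exact map_zero _

end Pool.Agent.Results.MP_5ec319_an.ZeroEntropyEnvelope
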